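import Pool.Agent.Q120.NL.Stm
import Pool.Agent.H295R2.L
import Pool.Agent.Q211.GB.Bas

/-!
# Project NL (helper120), job GZ: `L` and `1/L` to the right of all zeros
-/

set_option autoImplicit false

namespace Pool.Agent.Q124.NL

open Complex MeasureTheory Filter Topology Set Metric
open Pool.Agent.Q286.GB Pool.Agent.Q120.NL Pool.Agent.H295R2

/-- A logarithm of a function on a disc: bound on a smaller disc by the maximum principle for `G z / z ^ N`. -/
theorem annulus {G : ℂ → ℂ} {R R' r0 ρ B C1 : ℝ} (N : ℕ) (hRR : R' < R) (hr0 : 0 < r0) (hr : r0 < R')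
    (hρ : ρ < R') (hG : DifferentiableOn ℂ G (ball 0 R)) (hB : 0 ≤ B) (hC1 : 0 ≤ C1)
    (h1 : ∀ z : ℂ, ‖z‖ ≤ R' → ‖G z‖ ≤ B) (h2 : ∀ z : ℂ, ‖z‖ ≤ r0 → ‖G z‖ ≤ C1) (z : ℂ)
    (hz : ‖z‖ ≤ ρ) : ‖G z‖ ≤ C1 + C1 * (ρ / r0) ^ N + B * (ρ / R') ^ N := by
  have hR'0 : 0 < R' := by linarith
  have hρ0 : 0 ≤ ρ := (norm_nonneg z).trans hz
  have hp1 : 0 ≤ C1 * (ρ / r0) ^ N := by positivity
  have hp2 : 0 ≤ B * (ρ / R') ^ N := by positivity
  rcases le_or_gt ‖z‖ r0 with hz1 | hz1
  · have := h2 z hz1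
    linarith
  set U : Set ℂ := ball 0 R' ∩ (closedBall (0 : ℂ) r0)ᶜ with hU
  have hclos : closure U ⊆ closedBall 0 R' ∩ (ball (0 : ℂ) r0)ᶜ := by
    refine closure_minimal ?_ (isClosed_closedBall.inter isOpen_ball.isClosed_compl)
    rintro w ⟨hw1, hw2⟩
    exact ⟨ball_subset_closedBall hw1, fun hw3 => hw2 (ball_subset_closedBall hw3)⟩
  have hdiff : DiffContOnCl ℂ (fun w => G w / w ^ N) U := by
    refine DifferentiableOn.diffContOnCl ?_
    intro w hw
    obtain ⟨hw1, hw2⟩ := hclos hw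
    rw [mem_closedBall_zero_iff] at hw1
    rw [mem_compl_iff, mem_ball_zero_iff, not_lt] at hw2
    have hw0 : w ≠ 0 := by
      intro h
      rw [h, norm_zero] at hw2
      linarith
    have hwR : w ∈ ball (0 : ℂ) R := by rw [mem_ball_zero_iff]; linarith
    refine DifferentiableAt.differentiableWithinAt ?_
    exact DifferentiableAt.div (hG.differentiableAt (isOpen_ball.mem_nhds hwR)) (by fun_prop)
      (pow_ne_zero _ hw0)
  have hfront : ∀ w ∈ frontier U, ‖G w / w ^ N‖ ≤ C1 / r0 ^ N + B / R' ^ N := by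
    intro w hw
    have hw1 : w ∈ frontier (ball (0 : ℂ) R') ∪ frontier ((closedBall (0 : ℂ) r0)ᶜ) := by
      rcases frontier_inter_subset _ _ hw with h | h
      · exact Or.inl h.1
      · exact Or.inr h.2
    have hq1 : 0 ≤ C1 / r0 ^ N := by positivity
    have hq2 : 0 ≤ B / R' ^ N := by positivity
    rcases hw1 with hw1 | hw1
    · rw [frontier_ball _ hR'0.ne', mem_sphere_zero_iff_norm] at hw1
      rw [norm_div, norm_pow, hw1]
      have := h1 w hw1.le
      calc ‖G w‖ / R' ^ N ≤ B / R' ^ N := by gcongr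
        _ ≤ _ := by linarith
    · rw [frontier_compl, frontier_closedBall _ hr0.ne', mem_sphere_zero_iff_norm] at hw1
      rw [norm_div, norm_pow, hw1]
      have := h2 w hw1.le
      calc ‖G w‖ / r0 ^ N ≤ C1 / r0 ^ N := by gcongr
        _ ≤ _ := by linarith
  have hzU : z ∈ U := by
    refine ⟨?_, ?_⟩
    · rw [mem_ball_zero_iff]; linarith
    · rw [mem_compl_iff, mem_closedBall_zero_iff, not_le]; exact hz1
  have hbdd : Bornology.IsBounded U := isBounded_ball.subset inter_subset_left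
  have h5 := Complex.norm_le_of_forall_mem_frontier_norm_le hbdd hdiff hfront (subset_closure hzU)
  rw [norm_div, norm_pow] at h5
  have hzpos : 0 < ‖z‖ ^ N := pow_pos (by linarith) _
  rw [div_le_iff₀ hzpos] at h5
  have h6 : ‖z‖ ^ N ≤ ρ ^ N := pow_le_pow_left₀ (norm_nonneg _) hz N
  calc ‖G z‖ ≤ (C1 / r0 ^ N + B / R' ^ N) * ‖z‖ ^ N := h5
    _ ≤ (C1 / r0 ^ N + B / R' ^ N) * ρ ^ N := by gcongr
    _ = C1 * (ρ / r0) ^ N + B * (ρ / R') ^ N := by
      rw [div_pow, div_pow]
      ring
    _ ≤ _ := by linarith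

theorem log_le_aux {K x : ℝ} (hK : 0 ≤ K) (hx : 0 ≤ x) :
    K * Real.log (x + 9) ≤ K * (1 + Real.log (x + 5)) := by
  have h12 : x + 9 ≤ Real.exp 1 * (x + 5) := by
    have := Real.add_one_le_exp (1 : ℝ)
    nlinarith
  have h : Real.log (x + 9) ≤ 1 + Real.log (x + 5) :=
    calc Real.log (x + 9) ≤ Real.log (Real.exp 1 * (x + 5)) := Real.log_le_log (by positivity) h12
      _ = 1 + Real.log (x + 5) := by
        rw [Real.log_mul (Real.exp_pos _).ne' (by positivity), Real.log_exp]
  gcongr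

theorem t_GZ : J_GZ := by
  intro O θ hθ hz σ ε hσ hε
  obtain ⟨K1, hK1, hLb, -⟩ := Pool.Agent.Q211.GB.L_bd O
  have hone : ∀ s : ℂ, (1 : ℝ) ≤ (1 + |s.im|) ^ ε := fun s =>
    Real.one_le_rpow (by linarith [abs_nonneg s.im]) hε.le
  rcases le_or_gt 2 σ with hσ2 | hσ2
  · refine ⟨K1, by linarith, fun s hs => ?_⟩
    have h1 := hLb s (by linarith)
    have h2 := hone s
    constructor
    · nlinarith [h1.2.1]
    · nlinarith [h1.2.2]
  obtain ⟨C0, K0, hC0, hK0, hgrow⟩ := O.grow 0
  set R : ℝ := 4 - (θ + σ) / 2 with hR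
  set R' : ℝ := 4 - (θ + 3 * σ) / 4 with hR'
  have hRR' : R' < R := by rw [hR, hR']; linarith
  have hR4 : R ≤ 4 := by rw [hR]; linarith
  have hR'2 : 2 < R' := by rw [hR']; linarith
  have hrR' : 4 - σ < R' := by rw [hR']; linarith
  have hR'0 : 0 < R' := by linarith
  have hR0 : 0 < R := by linarith
  have hlogK : 0 ≤ Real.log K1 := Real.log_nonneg hK1
  set A0 : ℝ := |Real.log C0| + K0 + 1 with hA0
  have hA0pos : 0 < A0 := by rw [hA0]; positivity
  set C1 : ℝ := 2 * (Real.log K1 + 1) * (7 / 4) / (2 - 7 / 4) +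
    (Real.log K1 + 4) * (2 + 7 / 4) / (2 - 7 / 4) with hC1
  have hC1pos : 0 < C1 := by
    rw [hC1]
    have : (0 : ℝ) < 2 - 7 / 4 := by norm_num
    positivity
  set C2 : ℝ := 2 * A0 * R' / (R - R') + (Real.log K1 + 4) * (R + R') / (R - R') with hC2
  have hC2pos : 0 < C2 := by
    rw [hC2]
    have : (0 : ℝ) < R - R' := by linarith
    positivity
  -- choose N
  have hratio : (4 - σ) / R' < 1 := by rw [div_lt_one (by linarith)]; exact hrR'
  have hratio0 : 0 ≤ (4 - σ) / R' := div_nonneg (by linarith) (by linarith)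
  obtain ⟨N, hN⟩ := exists_pow_lt_of_lt_one (div_pos hε hC2pos) hratio
  have hN' : C2 * ((4 - σ) / R') ^ N ≤ ε := by
    have := (lt_div_iff₀ hC2pos).mp hN
    linarith
  set C3 : ℝ := C1 * ((4 - σ) / (7 / 4)) ^ N with hC3
  have hC3pos : 0 ≤ C3 := by
    rw [hC3]
    have : (0 : ℝ) ≤ (4 - σ) / (7 / 4) := div_nonneg (by linarith) (by norm_num)
    positivity
  set E : ℝ := Real.exp (C1 + C3 + ε) * 5 ^ ε with hE
  have hE0 : 0 < E := by rw [hE]; positivity
  -- main claim for `Re s ≤ 4`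
  have main : ∀ s : ℂ, σ ≤ s.re → s.re ≤ 4 →
      ‖O.L s‖ ≤ E * (1 + |s.im|) ^ ε ∧ ‖(O.L s)⁻¹‖ ≤ E * (1 + |s.im|) ^ ε := by
    intro s hs1 hs2
    set t : ℝ := s.im with htdef
    set c : ℂ := ⟨4, t⟩ with hc
    set f0 : ℂ → ℂ := fun z => O.L (c + z) with hf0
    have hcre : c.re = 4 := rfl
    have hcim : c.im = t := rfl
    -- geometry
    have hgeo : ∀ z ∈ ball (0 : ℂ) R, θ < (c + z).re ∧ 0 ≤ (c + z).re ∧ ‖c + z‖ ≤ |t| + 8 := by
      intro z hz'
      rw [mem_ball_zero_iff] at hz'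
      have h1 := Complex.abs_re_le_norm z
      have h3 := abs_le.mp (h1.trans hz'.le)
      rw [Complex.add_re, hcre]
      have h5 : θ < 4 + z.re := by
        rw [hR] at h3
        linarith [h3.1]
      refine ⟨h5, by linarith, ?_⟩
      have h4 : ‖c‖ ≤ 4 + |t| := by
        have := Complex.norm_le_abs_re_add_abs_im c
        rw [hcre, hcim] at this
        have h6 : |(4 : ℝ)| = 4 := abs_of_pos (by norm_num)
        linarith
      linarith [norm_add_le c z]
    have hf0d : DifferentiableOn ℂ f0 (ball 0 R) := by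
      intro z hz'
      refine DifferentiableAt.differentiableWithinAt ?_
      exact DifferentiableAt.comp z (g := O.L) (f := fun z => c + z) (O.entire _) (by fun_prop)
    have hf0ne : ∀ z ∈ ball (0 : ℂ) R, f0 z ≠ 0 := fun z hz' => hz (c + z) (hgeo z hz').1
    obtain ⟨G, hGd, hGexp, hG0⟩ := exists_log_ball (by linarith) hf0d hf0ne
    have hGre : ∀ z ∈ ball (0 : ℂ) R, (G z).re = Real.log ‖f0 z‖ := by
      intro z hz'
      rw [← hGexp z hz', Complex.norm_exp, Real.log_exp]
    -- value at 0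
    have h0R : (0 : ℂ) ∈ ball (0 : ℂ) R := mem_ball_self (by linarith)
    have hG00 : ‖G 0‖ ≤ Real.log K1 + 4 := by
      rw [hG0]
      have hc0 : 2 ≤ (c + 0).re := by rw [add_zero, hcre]; norm_num
      exact norm_log_le hK1 (hLb _ hc0).2.1 (hLb _ hc0).2.2 (hf0ne 0 h0R)
    -- bound on ball R
    set A : ℝ := A0 * (1 + Real.log (|t| + 5)) with hA
    have hlogt : 0 ≤ Real.log (|t| + 5) := Real.log_nonneg (by linarith [abs_nonneg t])
    have hApos : 0 < A := by rw [hA]; positivity
    have hupper : MapsTo G (ball 0 R) {z | z.re ≤ A} := by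
      intro z hz'
      obtain ⟨g1, g2, g3⟩ := hgeo z hz'
      change (G z).re ≤ A
      rw [hGre z hz']
      have hf0pos : 0 < ‖f0 z‖ := norm_pos_iff.mpr (hf0ne z hz')
      have h1 : ‖f0 z‖ ≤ C0 * (|t| + 9) ^ K0 := by
        refine (hgrow (c + z) (by linarith)).trans ?_
        have : 1 + ‖c + z‖ ≤ |t| + 9 := by linarith
        gcongr
      have h9 : Real.log ‖f0 z‖ ≤ Real.log (C0 * (|t| + 9) ^ K0) := Real.log_le_log hf0pos h1
      have h10 : Real.log (C0 * (|t| + 9) ^ K0) = Real.log C0 + K0 * Real.log (|t| + 9) := by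
        rw [Real.log_mul hC0.ne' (by positivity), Real.log_rpow (by positivity)]
      have h11 := log_le_aux hK0 (abs_nonneg t)
      have h12 : Real.log C0 ≤ |Real.log C0| := le_abs_self _
      have h13 : |Real.log C0| ≤ |Real.log C0| * (1 + Real.log (|t| + 5)) := by
        nlinarith [abs_nonneg (Real.log C0)]
      rw [hA, hA0]
      nlinarith
    have hBC : ∀ z : ℂ, ‖z‖ ≤ R' → ‖G z‖ ≤ C2 * (1 + Real.log (|t| + 5)) := by
      intro z hz'
      have hzR : z ∈ ball (0 : ℂ) R := by rw [mem_ball_zero_iff]; linarith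
      have h1 := Complex.borelCaratheodory hApos hGd hupper (by linarith) hzR
      refine h1.trans ?_
      have hd1 : 0 < R - R' := by linarith
      have hd2 : R - R' ≤ R - ‖z‖ := by linarith
      have e1 : 2 * A * ‖z‖ / (R - ‖z‖) ≤ 2 * A * R' / (R - R') := by
        have : 0 ≤ 2 * A * R' := by positivity
        gcongr
      have e2 : ‖G 0‖ * (R + ‖z‖) / (R - ‖z‖) ≤ (Real.log K1 + 4) * (R + R') / (R - R') := by
        gcongr
      have e3 : 0 ≤ (Real.log K1 + 4) * (R + R') / (R - R') := by positivity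
      calc _ ≤ 2 * A * R' / (R - R') + (Real.log K1 + 4) * (R + R') / (R - R') := add_le_add e1 e2
        _ ≤ C2 * (1 + Real.log (|t| + 5)) := by
          rw [hC2, hA]
          have e4 : 2 * (A0 * (1 + Real.log (|t| + 5))) * R' / (R - R') =
            (2 * A0 * R' / (R - R')) * (1 + Real.log (|t| + 5)) := by ring
          rw [e4]
          generalize (Real.log K1 + 4) * (R + R') / (R - R') = q at e3 ⊢
          generalize 2 * A0 * R' / (R - R') = p
          nlinarith
    -- bound on small ball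
    have hsmall : ∀ z : ℂ, ‖z‖ ≤ 7 / 4 → ‖G z‖ ≤ C1 := by
      intro z hz'
      have hsub : ball (0 : ℂ) 2 ⊆ ball (0 : ℂ) R := ball_subset_ball (by linarith)
      have hup2 : MapsTo G (ball 0 2) {z | z.re ≤ Real.log K1 + 1} := by
        intro w hw
        change (G w).re ≤ _
        rw [hGre w (hsub hw)]
        have hre : 2 ≤ (c + w).re := by
          rw [mem_ball_zero_iff] at hw
          have := abs_le.mp ((Complex.abs_re_le_norm w).trans hw.le)
          rw [Complex.add_re, hcre]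
          linarith [this.1]
        have := Real.log_le_log (norm_pos_iff.mpr (hf0ne w (hsub hw))) (hLb _ hre).2.1
        linarith
      have hzR : z ∈ ball (0 : ℂ) 2 := by rw [mem_ball_zero_iff]; linarith
      have h1 := Complex.borelCaratheodory (by linarith : 0 < Real.log K1 + 1) (hGd.mono hsub) hup2
        (by norm_num) hzR
      refine h1.trans ?_
      have hd1 : (0 : ℝ) < 2 - 7 / 4 := by norm_num
      have hd2 : (2 : ℝ) - 7 / 4 ≤ 2 - ‖z‖ := by linarith
      rw [hC1]
      refine add_le_add ?_ ?_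
      · gcongr
      · gcongr
    -- conclude
    set z : ℂ := ((s.re - 4 : ℝ) : ℂ) with hzdef
    have hcz : c + z = s := by
      apply Complex.ext
      · rw [Complex.add_re, hcre, hzdef, Complex.ofReal_re]; ring
      · rw [Complex.add_im, hcim, hzdef, Complex.ofReal_im, add_zero]
    have hznorm : ‖z‖ = 4 - s.re := by
      rw [hzdef, Complex.norm_real, Real.norm_eq_abs, abs_of_nonpos (by linarith)]; ring
    have hzR : z ∈ ball (0 : ℂ) R := by rw [mem_ball_zero_iff, hznorm]; linarith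
    have hB0 : 0 ≤ C2 * (1 + Real.log (|t| + 5)) := by positivity
    have hGz : ‖G z‖ ≤ C1 + C3 + ε * (1 + Real.log (|t| + 5)) := by
      have h1 := annulus (ρ := 4 - σ) (r0 := 7 / 4) N hRR' (by norm_num) (by linarith) hrR' hGd hB0
        hC1pos.le hBC hsmall z (by linarith)
      have h2 : C2 * (1 + Real.log (|t| + 5)) * ((4 - σ) / R') ^ N ≤ ε * (1 + Real.log (|t| + 5)) := by
        have e : C2 * (1 + Real.log (|t| + 5)) * ((4 - σ) / R') ^ N =
          C2 * ((4 - σ) / R') ^ N * (1 + Real.log (|t| + 5)) := by ring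
        rw [e]
        gcongr
      linarith
    have hfin : Real.exp ‖G z‖ ≤ E * (1 + |t|) ^ ε := by
      calc Real.exp ‖G z‖ ≤ Real.exp (C1 + C3 + ε + ε * Real.log (|t| + 5)) :=
            Real.exp_le_exp.mpr (by linarith)
        _ = Real.exp (C1 + C3 + ε) * (|t| + 5) ^ ε := by
          rw [Real.exp_add, Real.rpow_def_of_pos (by positivity), mul_comm ε]
        _ ≤ Real.exp (C1 + C3 + ε) * (5 * (1 + |t|)) ^ ε := by
          have : |t| + 5 ≤ 5 * (1 + |t|) := by linarith [abs_nonneg t]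
          gcongr
        _ = Real.exp (C1 + C3 + ε) * 5 ^ ε * (1 + |t|) ^ ε := by
          rw [Real.mul_rpow (by norm_num) (by positivity)]; ring
    have hLs : O.L s = Complex.exp (G z) := by
      rw [hGexp z hzR, hf0]
      simp only [hcz]
    rw [hLs, ← Complex.exp_neg, Complex.norm_exp, Complex.norm_exp]
    constructor
    · refine (Real.exp_le_exp.mpr ?_).trans hfin
      exact (le_abs_self _).trans (Complex.abs_re_le_norm _)
    · refine (Real.exp_le_exp.mpr ?_).trans hfin
      have := (le_abs_self _).trans (Complex.abs_re_le_norm (-G z))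
      rwa [norm_neg] at this
  refine ⟨K1 + E, by linarith, fun s hs => ?_⟩
  have hge := hone s
  rcases le_or_gt s.re 4 with h | h
  · obtain ⟨h1, h2⟩ := main s hs h
    constructor
    · refine h1.trans ?_
      gcongr
      linarith
    · refine h2.trans ?_
      gcongr
      linarith
  · have h1 := hLb s (by linarith)
    constructor
    · nlinarith [h1.2.1]
    · nlinarith [h1.2.2]

end Pool.Agent.Q124.NL
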