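import Pool.Agent.Q120.NL.Stm
import Pool.Agent.Q151.GB.Pl

/-!
# Project NL (helper120), job ID: the identity for the error on every abscissa
-/

set_option autoImplicit false

open Complex MeasureTheory Filter Topology Set FourierTransform
open scoped ContDiff
open Pool.Agent.Q286.BD (cl)
open Pool.Agent.Q286.GB Pool.Agent.Q120.NL Pool.Agent.Q151.GB

namespace Pool.Agent.Q124.NL

theorem FL_eq (O : LFn) (N : ℕ) (a : ℕ → ℂ) (s : ℂ) : FL O N a s = FF O N a s := by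
  unfold FL FF AN
  rw [mul_comm (O.L s)]

noncomputable def U2 (O : LFn) (σ : ℝ) (N : ℕ) (a : ℕ → ℂ) (v : ℝ) : ℂ :=
  (Ici (0 : ℝ)).indicator (fun v => CC O N a (Real.exp v) * cexp (-((σ : ℂ) + 2) * v)) v

theorem U2_int (O : LFn) {σ : ℝ} (hσ : 0 < σ) (N : ℕ) (a : ℕ → ℂ) : Integrable (U2 O σ N a) :=
  (CC_lap O N a ((σ : ℂ) + 2) (by simp; linarith)).1

theorem U2_fourier (O : LFn) {σ : ℝ} (hσ : 0 < σ) (N : ℕ) (a : ℕ → ℂ) (ξ : ℝ) :
    𝓕 (U2 O σ N a) ξ = FF O N a (σ + (2 + 2 * Real.pi * ξ * I)) := by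
  have h1 := (CC_lap O N a (σ + (2 + 2 * Real.pi * ξ * I)) (by simp; linarith)).2
  rw [← h1, Real.fourier_eq']
  congr 1
  funext v
  unfold U2
  rw [smul_eq_mul]
  rcases lt_or_ge v 0 with hv | hv
  · rw [indicator_of_notMem (by simpa using hv), indicator_of_notMem (by simpa using hv), mul_zero]
  · rw [indicator_of_mem (by simpa using hv), indicator_of_mem (by simpa using hv), mul_left_comm,
      ← Complex.exp_add]
    congr 2
    simp
    ring

theorem FF_bd' (O : LFn) {σ : ℝ} (hσ : 0 < σ) (N : ℕ) (a : ℕ → ℂ) :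
    ∃ C K : ℝ, 0 < C ∧ 0 ≤ K ∧ ∀ z : ℂ, 0 ≤ z.re → ‖FF O N a (σ + z)‖ ≤ C * (1 + ‖z‖) ^ K := by
  obtain ⟨C, K, hC, hK, h⟩ := O.grow 0
  obtain ⟨A, hA⟩ : ∃ A : ℝ, A = ∑ n ∈ Finset.Icc 1 N, ‖a n‖ := ⟨_, rfl⟩
  have hA0 : 0 ≤ A := hA ▸ Finset.sum_nonneg fun _ _ => norm_nonneg _
  refine ⟨(1 + A * (C * (1 + σ) ^ K)) / σ, K, by positivity, hK, fun z hz => ?_⟩
  have hre : ((σ : ℂ) + z).re = σ + z.re := by simp
  have h1 := h (σ + z) (by rw [hre]; linarith)
  have hz0 := norm_nonneg z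
  have h2 : ‖(σ : ℂ) + z‖ ≤ σ + ‖z‖ := by
    refine (norm_add_le _ _).trans ?_
    rw [Complex.norm_real, Real.norm_of_nonneg hσ.le]
  have h3 : (1 + ‖(σ : ℂ) + z‖) ^ K ≤ (1 + σ) ^ K * (1 + ‖z‖) ^ K := by
    rw [← Real.mul_rpow (by positivity) (by positivity)]
    exact Real.rpow_le_rpow (by positivity) (by nlinarith) hK
  have h4 : ‖AN N a (σ + z)‖ ≤ A := by
    unfold AN
    rw [hA]
    refine norm_sum_le_of_le _ fun n hn => ?_
    rw [Finset.mem_Icc] at hn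
    have hn0 : (0 : ℝ) < n := by exact_mod_cast (by omega : 0 < n)
    have hn1 : (1 : ℝ) ≤ n := by exact_mod_cast hn.1
    have e1 : ((n : ℕ) : ℂ) = (((n : ℝ)) : ℂ) := by norm_cast
    rw [norm_mul, e1, norm_cpow_eq_rpow_re_of_pos hn0]
    refine mul_le_of_le_one_right (norm_nonneg _) ?_
    refine Real.rpow_le_one_of_one_le_of_nonpos hn1 ?_
    rw [neg_re, hre]
    linarith
  have h5 : σ ≤ ‖(σ : ℂ) + z‖ := by
    have := Complex.re_le_norm ((σ : ℂ) + z)
    rw [hre] at this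
    linarith
  have hp : 1 ≤ (1 + ‖z‖) ^ K := Real.one_le_rpow (by linarith) hK
  unfold FF
  rw [norm_div, div_le_iff₀ (by linarith)]
  have h6 : ‖1 - AN N a (σ + z) * O.L (σ + z)‖ ≤ (1 + A * (C * (1 + σ) ^ K)) * (1 + ‖z‖) ^ K := by
    calc ‖1 - AN N a (σ + z) * O.L (σ + z)‖ ≤ 1 + ‖AN N a (σ + z)‖ * ‖O.L (σ + z)‖ := by
          refine (norm_sub_le _ _).trans ?_
          rw [norm_one, norm_mul]
      _ ≤ 1 + A * (C * ((1 + σ) ^ K * (1 + ‖z‖) ^ K)) := by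
          gcongr
          exact h1.trans (by gcongr)
      _ ≤ 1 * (1 + ‖z‖) ^ K + A * (C * ((1 + σ) ^ K * (1 + ‖z‖) ^ K)) := by linarith
      _ = _ := by ring
  have h7 : 0 ≤ (1 + A * (C * (1 + σ) ^ K)) * (1 + ‖z‖) ^ K := by positivity
  calc ‖1 - AN N a (σ + z) * O.L (σ + z)‖ ≤ (1 + A * (C * (1 + σ) ^ K)) * (1 + ‖z‖) ^ K := h6
    _ = (1 + A * (C * (1 + σ) ^ K)) / σ * (1 + ‖z‖) ^ K * σ := by field_simp
    _ ≤ _ := by
      gcongr

theorem FF_diff' (O : LFn) {σ : ℝ} (N : ℕ) (a : ℕ → ℂ) {z : ℂ} (hz : -σ < z.re) :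
    DifferentiableAt ℂ (fun z => FF O N a (σ + z)) z := by
  have h0 : ((σ : ℂ) + z) ≠ 0 := by
    intro h
    have := congrArg Complex.re h
    simp at this
    linarith
  have hA : Differentiable ℂ (AN N a) := by
    unfold AN
    refine Differentiable.fun_sum fun n hn => ?_
    rw [Finset.mem_Icc] at hn
    have hn0 : ((n : ℕ) : ℂ) ≠ 0 := by exact_mod_cast (by omega : n ≠ 0)
    intro s
    exact (differentiableAt_id.neg.const_cpow (Or.inl hn0)).const_mul _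
  have h1 : Differentiable ℂ (fun z : ℂ => (σ : ℂ) + z) := by fun_prop
  exact (((differentiable_const 1).sub ((hA.comp h1).mul (O.entire.comp h1))) z).div (h1 z) h0

theorem main_id' (O : LFn) {σ : ℝ} (hσ : 0 < σ) (N : ℕ) (a : ℕ → ℂ) {g : ℝ → ℂ}
    (hg : ContDiff ℝ ∞ g) (hs : HasCompactSupport g) :
    ∫ v : ℝ, g v * uS O σ N a v = ∫ ξ : ℝ, 𝓕⁻ g ξ * FF O N a (σ + 2 * Real.pi * ξ * I) := by
  have h1 := parseval hg hs (U2_int O hσ N a) 2
  have e1 : ∀ v : ℝ, g v * cexp ((2 : ℝ) * v) * U2 O σ N a v = g v * uS O σ N a v := by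
    intro v
    unfold U2 uS
    rcases lt_or_ge v 0 with hv | hv
    · rw [indicator_of_notMem (by simpa using hv), indicator_of_notMem (by simpa using hv), mul_zero,
        mul_zero]
    · rw [indicator_of_mem (by simpa using hv), indicator_of_mem (by simpa using hv)]
      have e2 : cexp ((2 : ℝ) * v) * cexp (-((σ : ℂ) + 2) * v) = cexp (-(σ : ℂ) * v) := by
        rw [← Complex.exp_add]
        congr 1
        push_cast
        ring
      rw [← e2]
      ring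
  rw [integral_congr_ae (Eventually.of_forall e1)] at h1
  rw [h1]
  obtain ⟨E, hE⟩ : ∃ E : ℂ → ℂ, E = fun z => lap g z * FF O N a (σ + z) := ⟨_, rfl⟩
  have hpi := Real.pi_pos
  have hsc : ∀ τ : ℝ, ∫ ξ : ℝ, E (τ + ((2 * Real.pi * ξ : ℝ) : ℂ) * I) =
      |(2 * Real.pi)⁻¹| • ∫ K : ℝ, E (τ + K * I) := by
    intro τ
    exact Measure.integral_comp_mul_left (fun K : ℝ => E (τ + K * I)) (2 * Real.pi)
  have e3 : ∀ ξ : ℝ, lap g ((2 : ℝ) + 2 * Real.pi * ξ * I) * 𝓕 (U2 O σ N a) ξ =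
      E ((2 : ℝ) + ((2 * Real.pi * ξ : ℝ) : ℂ) * I) := by
    intro ξ
    rw [U2_fourier O hσ, hE]
    push_cast
    rfl
  have e4 : ∀ ξ : ℝ, 𝓕⁻ g ξ * FF O N a (σ + 2 * Real.pi * ξ * I) =
      E ((0 : ℝ) + ((2 * Real.pi * ξ : ℝ) : ℂ) * I) := by
    intro ξ
    rw [fourierInv_lap, hE]
    push_cast
    rw [zero_add]
  rw [integral_congr_ae (Eventually.of_forall e3), integral_congr_ae (Eventually.of_forall e4),
    hsc, hsc]
  congr 1
  obtain ⟨C, K, hC, hK, hF⟩ := FF_bd' O hσ N a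
  obtain ⟨M, hM, hL⟩ := lap_decay hg hs K 2
  refine (Pool.Agent.Q237.BD.vshift (F := E) (a := 0) (b := 2) (M := C * M) (by norm_num) ∅
    countable_empty ?_ ?_ ?_).symm
  · intro z hz
    rw [hE]
    exact ((lap_diff hg.continuous hs z).mul
      (FF_diff' O N a (by linarith [hz.1]))).continuousAt.continuousWithinAt
  · intro z h1 h2 _
    rw [hE]
    exact (lap_diff hg.continuous hs z).mul (FF_diff' O N a (by linarith))
  · intro z h1 h2
    rw [hE]
    beta_reduce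
    rw [norm_mul]
    calc ‖lap g z‖ * ‖FF O N a (σ + z)‖ ≤ ‖lap g z‖ * (C * (1 + ‖z‖) ^ K) := by
          gcongr
          exact hF z h1
      _ = C * ((1 + ‖z‖) ^ K * ‖lap g z‖) := by ring
      _ ≤ C * (M / (1 + z.im ^ 2)) := by
          gcongr
          exact hL z (by rw [abs_of_nonneg h1]; exact h2)
      _ = C * M / (1 + z.im ^ 2) := by ring

theorem loc_int' (O : LFn) {σ : ℝ} (hσ : 0 < σ) (N : ℕ) (a : ℕ → ℂ) :
    LocallyIntegrable (uS O σ N a) := by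
  have hU := U2_int O hσ N a
  rw [locallyIntegrable_iff]
  intro K hK
  have h1 : ContinuousOn (fun v : ℝ => cexp (2 * v)) K := by fun_prop
  have h2 : IntegrableOn (fun v : ℝ => cexp (2 * v) * U2 O σ N a v) K :=
    hU.integrableOn.continuousOn_mul h1 hK
  refine h2.congr_fun ?_ hK.measurableSet
  intro v _
  beta_reduce
  unfold U2 uS
  rcases lt_or_ge v 0 with hv | hv
  · rw [indicator_of_notMem (by simpa using hv), indicator_of_notMem (by simpa using hv), mul_zero]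
  · rw [indicator_of_mem (by simpa using hv), indicator_of_mem (by simpa using hv), mul_left_comm,
      ← Complex.exp_add]
    congr 2
    ring

/-- JOB NL-ID -/
theorem t_ID : J_ID := by
  intro O N a σ hσ
  refine ⟨loc_int' O hσ N a, fun g hg hs => ?_⟩
  have hg₁ : HasCompactSupport (Complex.ofRealCLM ∘ g) := hs.comp_left rfl
  have hg₂ : ContDiff ℝ ∞ (Complex.ofRealCLM ∘ g) := by fun_prop
  have h3 := main_id' O hσ N a (g := fun x => ((g x : ℝ) : ℂ)) hg₂ hg₁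
  rw [h3]
  congr 1
  funext ξ
  rw [FL_eq]

end Pool.Agent.Q124.NL
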