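import Pool.Agent.Q120.NL.Stm
import Pool.Agent.Q31.NB.PER
import Pool.Agent.Q211.GB.Bas

/-!
# Project NL (helper120), job PE: the polynomial with coefficients `μ_L(n)(1-n/N)` approximates `1/L`
-/

set_option autoImplicit false

open MeasureTheory Filter Topology Set
open Pool.Agent.H295R2 Pool.Agent.Q31.NB
open Pool.Agent.Q286.GB Pool.Agent.Q120.NL

namespace Pool.Agent.Q124.NL

noncomputable section

/-- the shift of the line of integration over the removable singularity at `0` -/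
lemma shift2 {g : ℂ → ℂ} {c A : ℝ} (hc : 0 < c) (hc1 : c < 1)
    (hd : ∀ z : ℂ, -c ≤ z.re → z.re ≤ 2 → DifferentiableAt ℂ g z)
    (hb : ∀ z : ℂ, -c ≤ z.re → z.re ≤ 2 → ‖g z‖ ≤ A * (1 + |z.im|) ^ (1 / 2 : ℝ)) :
    ∫ y : ℝ, (g (((-c : ℝ) : ℂ) + y * Complex.I) - g 0) * Kf (((-c : ℝ) : ℂ) + y * Complex.I) =
      ∫ y : ℝ, (g (((2 : ℝ) : ℂ) + y * Complex.I) - g 0) * Kf (((2 : ℝ) : ℂ) + y * Complex.I) := by
  set H : ℂ → ℂ := fun z => dslope g 0 z / (z + 1) with hH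
  have hHne : ∀ z : ℂ, z ≠ 0 → H z = (g z - g 0) * Kf z := by
    intro z hz
    rw [hH]
    unfold Kf
    simp only
    rw [dslope_of_ne _ hz, slope_def_field, sub_zero, div_div]
    ring
  have hHd : ∀ z : ℂ, -c ≤ z.re → z.re ≤ 2 → DifferentiableAt ℂ H z := by
    intro z h1 h2
    have hne : z + 1 ≠ 0 := by
      intro h
      have := congrArg Complex.re h
      simp at this
      linarith
    have h3 : DifferentiableAt ℂ (dslope g 0) z := by
      by_cases hz : z = 0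
      · have hS : {z : ℂ | -c < z.re ∧ z.re < 2} ∈ 𝓝 (0 : ℂ) := by
          refine IsOpen.mem_nhds ?_ ?_
          · exact (isOpen_lt continuous_const Complex.continuous_re).inter
              (isOpen_lt Complex.continuous_re continuous_const)
          · simp [hc]
        have h4 : DifferentiableOn ℂ (dslope g 0) {z : ℂ | -c < z.re ∧ z.re < 2} := by
          rw [Complex.differentiableOn_dslope hS]
          intro w hw
          exact (hd w hw.1.le hw.2.le).differentiableWithinAt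
        rw [hz]
        exact h4.differentiableAt hS
      · rw [differentiableAt_dslope_of_ne hz]
        exact hd z h1 h2
    exact h3.div (by fun_prop) hne
  -- the bound
  have hA : 0 ≤ A := by
    have h1 := (norm_nonneg _).trans (hb 0 (by simp; linarith) (by simp))
    simpa using h1
  set Q : Set ℂ := Complex.reProdIm (Icc (-c) 2) (Icc (-1) 1) with hQ
  have hQc : IsCompact Q := isCompact_Icc.reProdIm isCompact_Icc
  have hcont : ContinuousOn H Q := by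
    intro s hs
    rw [hQ, Complex.mem_reProdIm] at hs
    exact (hHd s hs.1.1 hs.1.2).continuousAt.continuousWithinAt
  obtain ⟨M, hM⟩ := hQc.exists_bound_of_continuousOn hcont
  have hM0 : 0 ≤ M := by
    have h1 := hM 0 (by rw [hQ, Complex.mem_reProdIm]; simp; linarith)
    exact (norm_nonneg _).trans h1
  have hbound : ∀ z : ℂ, -c ≤ z.re → z.re ≤ 2 →
      ‖H z‖ ≤ (8 * A + 4 * M) * (1 + |z.im|) ^ (-(3 / 2) : ℝ) := by
    intro z h1 h2
    have hy : 0 < (1 + |z.im|) ^ (-(3 / 2) : ℝ) := by positivity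
    rcases le_or_gt 1 |z.im| with h | h
    · have hz0 : z ≠ 0 := by
        rintro rfl
        simp at h
        linarith
      have e1 : 1 ≤ ‖z‖ := h.trans (Complex.abs_im_le_norm z)
      have e2 : 1 ≤ ‖z + 1‖ := by
        have := Complex.abs_im_le_norm (z + 1)
        simp only [Complex.add_im, Complex.one_im, add_zero] at this
        linarith
      have e3 : ‖Kf z‖ ≤ (4 / 1 ^ 2) * (1 + |z.im|) ^ (-2 : ℝ) := K_bound one_pos le_rfl e1 e2
      have e4 : ‖g z - g 0‖ ≤ 2 * A * (1 + |z.im|) ^ (1 / 2 : ℝ) := by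
        have e5 := hb z h1 h2
        have e6 := hb 0 (by simp; linarith) (by simp)
        simp only [Complex.zero_im, abs_zero, add_zero, Real.one_rpow, mul_one] at e6
        have e7 : (1 : ℝ) ≤ (1 + |z.im|) ^ (1 / 2 : ℝ) :=
          Real.one_le_rpow (by linarith [abs_nonneg z.im]) (by norm_num)
        have e8 := norm_sub_le (g z) (g 0)
        have e9 : A ≤ A * (1 + |z.im|) ^ (1 / 2 : ℝ) := le_mul_of_one_le_right hA e7
        linarith
      rw [hHne z hz0, norm_mul]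
      have e10 : (1 + |z.im|) ^ (1 / 2 : ℝ) * (1 + |z.im|) ^ (-2 : ℝ) = (1 + |z.im|) ^ (-(3 / 2) : ℝ) := by
        rw [← Real.rpow_add (by positivity)]
        norm_num
      calc ‖g z - g 0‖ * ‖Kf z‖
          ≤ (2 * A * (1 + |z.im|) ^ (1 / 2 : ℝ)) * ((4 / 1 ^ 2) * (1 + |z.im|) ^ (-2 : ℝ)) := by gcongr
        _ = 8 * A * ((1 + |z.im|) ^ (1 / 2 : ℝ) * (1 + |z.im|) ^ (-2 : ℝ)) := by ring
        _ = 8 * A * (1 + |z.im|) ^ (-(3 / 2) : ℝ) := by rw [e10]
        _ ≤ _ := by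
          gcongr
          linarith
    · have hzQ : z ∈ Q := by
        rw [hQ, Complex.mem_reProdIm]
        exact ⟨⟨h1, h2⟩, abs_le.mp h.le⟩
      have e1 := hM z hzQ
      have e2 : (1 / 4 : ℝ) ≤ (1 + |z.im|) ^ (-(3 / 2) : ℝ) := by
        have e3 := pow_two_le z.im
        have e4 : (1 + |z.im|) ^ (-2 : ℝ) = 1 / (1 + |z.im|) ^ 2 := by
          rw [Real.rpow_neg (by positivity)]
          norm_num
        rw [e4] at e3
        refine le_trans ?_ e3
        rw [div_le_div_iff₀ (by norm_num) (by positivity)]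
        nlinarith [abs_nonneg z.im]
      nlinarith
  have hsh := contour_shift (H := H) (a := -c) (b := 2) (by linarith) hHd hbound
  have l1 : ∀ y : ℝ, (((-c : ℝ) : ℂ) + y * Complex.I) ≠ 0 := by
    intro y h
    have := congrArg Complex.re h
    simp at this
    linarith
  have l2 : ∀ y : ℝ, (((2 : ℝ) : ℂ) + y * Complex.I) ≠ 0 := by
    intro y h
    have := congrArg Complex.re h
    simp at this
  simp_rw [hHne _ (l1 _), hHne _ (l2 _)] at hsh
  exact hsh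

lemma Kf_two {z : ℂ} (hz : z.re = 2) : z ≠ 0 ∧ z + 1 ≠ 0 ∧ ‖Kf z‖ ≤ 4 * (1 + |z.im|) ^ (-2 : ℝ) := by
  have e1 : 1 ≤ ‖z‖ := by
    have := Complex.abs_re_le_norm z
    have h3 := le_abs_self z.re
    linarith
  have e2 : 1 ≤ ‖z + 1‖ := by
    have := Complex.abs_re_le_norm (z + 1)
    have h3 := le_abs_self (z + 1).re
    simp only [Complex.add_re, Complex.one_re] at this h3
    linarith
  refine ⟨?_, ?_, ?_⟩
  · rintro rfl
    simp at hz
  · intro h
    rw [h, norm_zero] at e2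
    linarith
  · have := K_bound one_pos le_rfl e1 e2
    simpa [Kf] using this

lemma Kf_int_two : Integrable (fun y : ℝ => Kf (((2 : ℝ) : ℂ) + y * Complex.I)) := by
  refine vertical_integrable (B := 4) (fun s hs => ?_) (fun s hs => ?_)
  · obtain ⟨h1, h2, -⟩ := Kf_two hs
    exact Kf_cont h1 h2
  · obtain ⟨-, -, h3⟩ := Kf_two hs
    refine h3.trans ?_
    have := pow_two_le s.im
    gcongr

lemma re_line2 (ξ : ℝ) : (((2 : ℝ) : ℂ) + 2 * Real.pi * ξ * Complex.I).re = 2 := by simp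

lemma Lap_line2 (ξ : ℝ) : Pool.Agent.H295R2.Lap ker (((2 : ℝ) : ℂ) + 2 * Real.pi * ξ * Complex.I) =
    Kf (((2 : ℝ) : ℂ) + 2 * Real.pi * ξ * Complex.I) :=
  Lap_ker (by rw [re_line2]; norm_num)

lemma Lap_int2 : Integrable
    (fun ξ : ℝ => Pool.Agent.H295R2.Lap ker (((2 : ℝ) : ℂ) + 2 * Real.pi * ξ * Complex.I)) := by
  simp_rw [Lap_line2]
  exact scale_integrable Kf_int_two

lemma Kf_zero2 : ∫ y : ℝ, Kf (((2 : ℝ) : ℂ) + y * Complex.I) = 0 := by
  have h1 := inversion ker_nice (by norm_num : (0 : ℝ) < 2) ker_cont Lap_int2 0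
  rw [ker_nonpos le_rfl] at h1
  simp only [Complex.ofReal_zero, mul_zero, Complex.exp_zero, mul_one] at h1
  simp_rw [Lap_line2] at h1
  rw [scale_integral] at h1
  have h2 : (((2 * Real.pi)⁻¹ : ℝ) : ℂ) ≠ 0 := by
    exact_mod_cast (by positivity : (2 * Real.pi : ℝ)⁻¹ ≠ 0)
  exact (mul_eq_zero.mp h1.symm).resolve_left h2

/-- the Dirichlet series on the line `Re z = 2` -/
lemma series_line2 (O : LFn) {s : ℂ} (hs : 0 < s.re) (x : ℝ) :
    HasSum (fun m : ℕ => O.mu m * (m : ℂ) ^ (-s) * ker (x - Real.log m))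
      (∫ ξ : ℝ, Kf (((2 : ℝ) : ℂ) + 2 * Real.pi * ξ * Complex.I) *
        (Complex.exp ((((2 : ℝ) : ℂ) + 2 * Real.pi * ξ * Complex.I) * x) *
        (O.L (s + (((2 : ℝ) : ℂ) + 2 * Real.pi * ξ * Complex.I)))⁻¹)) := by
  have hre : ∀ ξ : ℝ, (s + (((2 : ℝ) : ℂ) + 2 * Real.pi * ξ * Complex.I)).re = s.re + 2 := by
    intro ξ
    rw [Complex.add_re, re_line2]
  have hLint := Lap_int2
  set F : ℕ → ℝ → ℂ := fun m ξ => Pool.Agent.H295R2.Lap ker ((2 : ℝ) + 2 * Real.pi * ξ * Complex.I) *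
      Complex.exp (((2 : ℝ) + 2 * Real.pi * ξ * Complex.I) * x) *
      (O.mu m * (m : ℂ) ^ (-(s + ((2 : ℝ) + 2 * Real.pi * ξ * Complex.I)))) with hF
  have hFeq : ∀ m : ℕ, ∀ ξ : ℝ, F m ξ = (O.mu m * (m : ℂ) ^ (-s)) *
      (Pool.Agent.H295R2.Lap ker ((2 : ℝ) + 2 * Real.pi * ξ * Complex.I) *
      Complex.exp (((2 : ℝ) + 2 * Real.pi * ξ * Complex.I) * ((x - Real.log m : ℝ) : ℂ))) := by
    intro m ξ
    rcases Nat.eq_zero_or_pos m with rfl | hm
    · simp [hF, O.mu_zero]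
    · have hm0 : (m : ℂ) ≠ 0 := by exact_mod_cast hm.ne'
      rw [hF]
      simp only
      have e1 : Complex.exp (((2 : ℝ) + 2 * Real.pi * ξ * Complex.I) * x) *
            (m : ℂ) ^ (-(s + (((2 : ℝ) : ℂ) + 2 * Real.pi * ξ * Complex.I))) =
          (m : ℂ) ^ (-s) *
            Complex.exp (((2 : ℝ) + 2 * Real.pi * ξ * Complex.I) * ((x - Real.log m : ℝ) : ℂ)) := by
        rw [Complex.cpow_def_of_ne_zero hm0, Complex.cpow_def_of_ne_zero hm0, ← Complex.exp_add,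
          ← Complex.exp_add]
        congr 1
        rw [Complex.ofReal_sub, Complex.natCast_log]
        ring
      linear_combination (Pool.Agent.H295R2.Lap ker ((2 : ℝ) + 2 * Real.pi * ξ * Complex.I) *
        O.mu m) * e1
  have hFnorm : ∀ m : ℕ, ∀ ξ : ℝ, ‖F m ξ‖ ≤ (Real.exp (2 * x) * (‖O.mu m‖ * (m : ℝ) ^ (-2 : ℝ))) *
      ‖Pool.Agent.H295R2.Lap ker ((2 : ℝ) + 2 * Real.pi * ξ * Complex.I)‖ := by
    intro m ξ
    rw [hF]
    simp only
    rw [norm_mul, norm_mul (Pool.Agent.H295R2.Lap ker _)]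
    have e1 : ‖Complex.exp (((2 : ℝ) + 2 * Real.pi * ξ * Complex.I) * x)‖ = Real.exp (2 * x) := by
      rw [Complex.norm_exp]; congr 1; simp
    have e2 := Pool.Agent.Q211.GB.term_le O.mu_zero
      (s := s + (((2 : ℝ) : ℂ) + 2 * Real.pi * ξ * Complex.I)) (by rw [hre]; linarith) m
    rw [e1]
    calc _ ≤ ‖Pool.Agent.H295R2.Lap ker ((2 : ℝ) + 2 * Real.pi * ξ * Complex.I)‖ * Real.exp (2 * x) *
          (‖O.mu m‖ * (m : ℝ) ^ (-2 : ℝ)) := by gcongr
      _ = _ := by ring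
  have hFint : ∀ m : ℕ, Integrable (F m) := by
    intro m
    refine (hLint.norm.const_mul (Real.exp (2 * x) * (‖O.mu m‖ * (m : ℝ) ^ (-2 : ℝ)))).mono' ?_
      (Eventually.of_forall fun ξ => hFnorm m ξ)
    have : F m = fun ξ : ℝ => (O.mu m * (m : ℂ) ^ (-s)) *
      (Pool.Agent.H295R2.Lap ker ((2 : ℝ) + 2 * Real.pi * ξ * Complex.I) *
      Complex.exp (((2 : ℝ) + 2 * Real.pi * ξ * Complex.I) * ((x - Real.log m : ℝ) : ℂ))) := by
      ext ξ; exact hFeq m ξ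
    rw [this]
    refine AEStronglyMeasurable.const_mul ?_ _
    refine hLint.aestronglyMeasurable.mul (Continuous.aestronglyMeasurable ?_)
    fun_prop
  have hFsum : Summable (fun m : ℕ => ∫ ξ, ‖F m ξ‖) := by
    refine Summable.of_nonneg_of_le (fun m => integral_nonneg fun ξ => norm_nonneg _)
      (f := fun m : ℕ => (Real.exp (2 * x) *
        ∫ ξ : ℝ, ‖Pool.Agent.H295R2.Lap ker ((2 : ℝ) + 2 * Real.pi * ξ * Complex.I)‖) *
        (‖O.mu m‖ * (m : ℝ) ^ (-2 : ℝ))) ?_ ?_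
    · intro m
      calc ∫ ξ, ‖F m ξ‖ ≤ ∫ ξ : ℝ, (Real.exp (2 * x) * (‖O.mu m‖ * (m : ℝ) ^ (-2 : ℝ))) *
            ‖Pool.Agent.H295R2.Lap ker ((2 : ℝ) + 2 * Real.pi * ξ * Complex.I)‖ :=
            integral_mono (hFint m).norm (hLint.norm.const_mul _) (hFnorm m)
        _ = _ := by rw [integral_const_mul]; ring
    · exact O.mu_sum.mul_left _
  have key := hasSum_integral_of_summable_integral_norm hFint hFsum
  have e1 : ∀ m : ℕ, ∫ ξ, F m ξ = O.mu m * (m : ℂ) ^ (-s) * ker (x - Real.log m) := by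
    intro m
    simp_rw [hFeq]
    rw [integral_const_mul]
    congr 1
    exact (inversion ker_nice (by norm_num : (0 : ℝ) < 2) ker_cont hLint (x - Real.log m)).symm
  have e2 : ∫ ξ, ∑' m, F m ξ = ∫ ξ : ℝ, Kf (((2 : ℝ) : ℂ) + 2 * Real.pi * ξ * Complex.I) *
        (Complex.exp ((((2 : ℝ) : ℂ) + 2 * Real.pi * ξ * Complex.I) * x) *
        (O.L (s + (((2 : ℝ) : ℂ) + 2 * Real.pi * ξ * Complex.I)))⁻¹) := by
    refine integral_congr_ae (Eventually.of_forall fun ξ => ?_)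
    simp only [hF]
    rw [tsum_mul_left]
    have h1 := Pool.Agent.Q211.GB.L_mul O (s := s + (((2 : ℝ) : ℂ) + 2 * Real.pi * ξ * Complex.I))
      (by rw [hre]; linarith)
    rw [inv_eq_of_mul_eq_one_right h1, Lap_line2, mul_assoc]
  simp_rw [e1] at key
  rw [e2] at key
  exact key

/-- the Dirichlet polynomial as an integral -/
lemma poly_eq2 (O : LFn) {s : ℂ} (hs : 0 < s.re) {N : ℕ} (hN : 1 ≤ N) :
    ∑ n ∈ Finset.Icc 1 N, mobL O N n * (n : ℂ) ^ (-s) = (((2 * Real.pi)⁻¹ : ℝ) : ℂ) *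
      ∫ y : ℝ, Kf (((2 : ℝ) : ℂ) + y * Complex.I) *
        (Complex.exp ((((2 : ℝ) : ℂ) + y * Complex.I) * (Real.log N : ℝ)) *
        (O.L (s + (((2 : ℝ) : ℂ) + y * Complex.I)))⁻¹) := by
  have h1 := series_line2 O hs (Real.log N)
  have h2 := scale_integral
    (fun z => Kf z * (Complex.exp (z * (Real.log N : ℝ)) * (O.L (s + z))⁻¹)) 2
  rw [h2] at h1
  have hN0 : (0 : ℝ) < N := by exact_mod_cast hN
  have h3 : HasSum (fun m : ℕ => O.mu m * (m : ℂ) ^ (-s) * ker (Real.log N - Real.log m))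
      (∑ n ∈ Finset.Icc 1 N, O.mu n * (n : ℂ) ^ (-s) * ker (Real.log N - Real.log n)) := by
    refine hasSum_sum_of_ne_finset_zero ?_
    intro m hm
    rw [Finset.mem_Icc, not_and_or, not_le, not_le] at hm
    rcases hm with hm | hm
    · have : m = 0 := by omega
      subst this
      rw [O.mu_zero, zero_mul, zero_mul]
    · rw [ker_nonpos, mul_zero]
      have : (N : ℝ) ≤ m := by exact_mod_cast hm.le
      have := Real.log_le_log hN0 this
      linarith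
  rw [h1.unique h3]
  refine Finset.sum_congr rfl fun n hn => ?_
  rw [Finset.mem_Icc] at hn
  have hn0 : (0 : ℝ) < n := by exact_mod_cast hn.1
  have hnN : (n : ℝ) ≤ N := by exact_mod_cast hn.2
  have h4 : 0 ≤ Real.log N - Real.log n := by
    have := Real.log_le_log hn0 hnN
    linarith
  rw [ker_pos h4]
  have h5 : Complex.exp (-((Real.log N - Real.log n : ℝ) : ℂ)) = (n : ℂ) / N := by
    rw [← Complex.ofReal_neg, ← Complex.ofReal_exp, neg_sub, Real.exp_sub, Real.exp_log hn0,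
      Real.exp_log hN0]
    push_cast
    rfl
  rw [h5]
  unfold mobL
  ring

lemma Kf_strip {c : ℝ} (hc : 0 < c) (hc1 : c < 1) {z : ℂ} (hz1 : -(max c (1 / 2)) ≤ z.re)
    (hz2 : z.re ≤ -(min c (1 / 2))) :
    z ≠ 0 ∧ z + 1 ≠ 0 ∧ ‖Kf z‖ ≤ (4 / (min (min c (1 - c)) (1 / 2)) ^ 2) * (1 + |z.im|) ^ (-2 : ℝ) := by
  set δ : ℝ := min (min c (1 - c)) (1 / 2) with hδ
  have hδ0 : 0 < δ := lt_min (lt_min hc (by linarith)) (by norm_num)
  have hδ1 : δ ≤ c := (min_le_left _ _).trans (min_le_left _ _)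
  have hδ2 : δ ≤ 1 - c := (min_le_left _ _).trans (min_le_right _ _)
  have hδ3 : δ ≤ 1 / 2 := min_le_right _ _
  have e1 : δ ≤ ‖z‖ := by
    have := Complex.abs_re_le_norm z
    have h3 := neg_le_abs z.re
    have h4 : δ ≤ min c (1 / 2) := le_min hδ1 hδ3
    linarith
  have e2 : δ ≤ ‖z + 1‖ := by
    have := Complex.abs_re_le_norm (z + 1)
    have h3 := le_abs_self (z + 1).re
    simp only [Complex.add_re, Complex.one_re] at this h3
    have h4 : max c (1 / 2) ≤ 1 - δ := max_le (by linarith) (by linarith)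
    linarith
  refine ⟨?_, ?_, K_bound hδ0 (by linarith) e1 e2⟩
  · rintro rfl
    rw [norm_zero] at e1
    linarith
  · intro h
    rw [h, norm_zero] at e2
    linarith

/-- the integral of `1/(z(z+1))` on a line between the two poles -/
lemma K_left2 {c : ℝ} (hc : 0 < c) (hc1 : c < 1) :
    Integrable (fun y : ℝ => Kf (((-c : ℝ) : ℂ) + y * Complex.I)) ∧
    ∫ y : ℝ, Kf (((-c : ℝ) : ℂ) + y * Complex.I) = -(2 * Real.pi) := by
  rcases le_or_gt c (1 / 2) with h | h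
  · exact K_left hc h
  have hmax : max c (1 / 2) = c := max_eq_left h.le
  have hmin : min c (1 / 2) = 1 / 2 := min_eq_right h.le
  have hb : ∀ z : ℂ, -c ≤ z.re → z.re ≤ -(1 / 2) → DifferentiableAt ℂ Kf z ∧
      ‖Kf z‖ ≤ (4 / (min (min c (1 - c)) (1 / 2)) ^ 2) * (1 + |z.im|) ^ (-(3 / 2) : ℝ) := by
    intro z h1 h2
    obtain ⟨n1, n2, n3⟩ := Kf_strip hc hc1 (z := z) (by rw [hmax]; exact h1) (by rw [hmin]; exact h2)
    refine ⟨?_, ?_⟩
    · have : DifferentiableAt ℂ (fun z : ℂ => 1 / (z * (z + 1))) z :=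
        DifferentiableAt.div (by fun_prop) (by fun_prop) (mul_ne_zero n1 n2)
      exact this
    · refine n3.trans ?_
      have := pow_two_le z.im
      gcongr
  refine ⟨vertical_integrable (H := Kf) (a := -c)
    (fun s hs => (hb s hs.ge (by rw [hs]; linarith)).1.continuousAt)
    (fun s hs => (hb s hs.ge (by rw [hs]; linarith)).2), ?_⟩
  have hsh := contour_shift (H := Kf) (a := -c) (b := -(1 / 2)) (by linarith)
    (fun s h1 h2 => (hb s h1 h2).1) (fun s h1 h2 => (hb s h1 h2).2)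
  rw [hsh]
  exact (K_left (by norm_num : (0 : ℝ) < 1 / 2) le_rfl).2

/-- JOB NL-PE -/
theorem t_PE (hGZ : J_GZ) : J_PE := by
  intro O θ hθ hz σ ε hσ hσ1 hε
  -- the exponent
  set e : ℝ := min (min (ε / 2) ((σ - θ) / 4)) (1 / 2) with he
  have he0 : 0 < e := lt_min (lt_min (by linarith) (by linarith)) (by norm_num)
  have he1 : e ≤ ε / 2 := (min_le_left _ _).trans (min_le_left _ _)
  have he2 : e ≤ (σ - θ) / 4 := (min_le_left _ _).trans (min_le_right _ _)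
  have he3 : e ≤ 1 / 2 := min_le_right _ _
  set c : ℝ := σ - θ - e with hc
  have hc0 : 0 < c := by rw [hc]; linarith
  have hc1 : c < 1 := by rw [hc]; linarith
  set δ : ℝ := min (min c (1 - c)) (1 / 2) with hδ
  have hδ0 : 0 < δ := lt_min (lt_min hc0 (by linarith)) (by norm_num)
  obtain ⟨Cf, hCf0, hCf⟩ := hGZ O θ hθ hz (θ + e) e (by linarith) he0
  set I0 : ℝ := ∫ y : ℝ, (1 + |y|) ^ (-(3 / 2 : ℝ)) with hI0
  have hI0n : 0 ≤ I0 := integral_nonneg fun y => by positivity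
  refine ⟨(2 * Real.pi)⁻¹ * (Cf * (4 / δ ^ 2) * I0) + 1, by positivity, ?_⟩
  intro N t hN
  have hN1 : (1 : ℝ) ≤ N := by exact_mod_cast hN
  have hN0 : (0 : ℝ) < N := by linarith
  set s : ℂ := (σ : ℂ) + t * Complex.I with hs
  have hsre : s.re = σ := by rw [hs]; simp
  have hsim : s.im = t := by rw [hs]; simp
  set D : ℝ := Cf * (1 + |t|) ^ e with hD
  have hD0 : 0 < D := by rw [hD]; positivity
  set g : ℂ → ℂ := fun z => Complex.exp (z * (Real.log N : ℝ)) * (O.L (s + z))⁻¹ with hg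
  have hgd : ∀ z : ℂ, -c ≤ z.re → z.re ≤ 2 → DifferentiableAt ℂ g z := by
    intro z h1 h2
    have hne : O.L (s + z) ≠ 0 := by
      refine hz _ ?_
      rw [Complex.add_re, hsre]
      linarith
    have h4 : DifferentiableAt ℂ (fun z => O.L (s + z)) z :=
      DifferentiableAt.comp z (g := O.L) (f := fun z => s + z) (O.entire _) (by fun_prop)
    rw [hg]
    exact DifferentiableAt.mul (by fun_prop) (h4.inv hne)
  have hgb : ∀ z : ℂ, -c ≤ z.re → z.re ≤ 2 →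
      ‖g z‖ ≤ (N : ℝ) ^ z.re * D * (1 + |z.im|) ^ (1 / 2 : ℝ) := by
    intro z h1 h2
    rw [hg]
    simp only
    rw [norm_mul]
    have e1 : ‖Complex.exp (z * (Real.log N : ℝ))‖ = (N : ℝ) ^ z.re := by
      rw [Complex.norm_exp, Real.rpow_def_of_pos hN0]
      congr 1
      simp only [Complex.mul_re, Complex.ofReal_re, Complex.ofReal_im, mul_zero, sub_zero]
      ring
    have e2 : ‖(O.L (s + z))⁻¹‖ ≤ D * (1 + |z.im|) ^ (1 / 2 : ℝ) := by
      have e3 := (hCf (s + z) (by rw [Complex.add_re, hsre]; linarith)).2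
      rw [Complex.add_im, hsim] at e3
      have e4 := rpow_sub_bound (a := t) (b := z.im) he0.le
      have e5 : (1 + |z.im|) ^ e ≤ (1 + |z.im|) ^ (1 / 2 : ℝ) :=
        Real.rpow_le_rpow_of_exponent_le (by linarith [abs_nonneg z.im]) he3
      calc ‖(O.L (s + z))⁻¹‖ ≤ Cf * (1 + |t + z.im|) ^ e := e3
        _ ≤ Cf * ((1 + |t|) ^ e * (1 + |z.im|) ^ (1 / 2 : ℝ)) := by
          gcongr
          refine e4.trans ?_
          gcongr
        _ = D * (1 + |z.im|) ^ (1 / 2 : ℝ) := by rw [hD]; ring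
    rw [e1]
    calc (N : ℝ) ^ z.re * ‖(O.L (s + z))⁻¹‖ ≤ (N : ℝ) ^ z.re * (D * (1 + |z.im|) ^ (1 / 2 : ℝ)) := by
          gcongr
      _ = _ := by ring
  have hgb' : ∀ z : ℂ, -c ≤ z.re → z.re ≤ 2 →
      ‖g z‖ ≤ ((N : ℝ) ^ (2 : ℝ) * D) * (1 + |z.im|) ^ (1 / 2 : ℝ) := by
    intro z h1 h2
    refine (hgb z h1 h2).trans ?_
    have e1 : (N : ℝ) ^ z.re ≤ (N : ℝ) ^ (2 : ℝ) := Real.rpow_le_rpow_of_exponent_le hN1 h2
    gcongr
  have hg0 : g 0 = (O.L s)⁻¹ := by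
    rw [hg]
    simp
  have hsh := shift2 hc0 hc1 hgd hgb'
  -- bounds on the two lines
  have hpow : ∀ y : ℝ, (1 + |y|) ^ (1 / 2 : ℝ) * (1 + |y|) ^ (-2 : ℝ) = (1 + |y|) ^ (-(3 / 2) : ℝ) := by
    intro y
    rw [← Real.rpow_add (by positivity)]
    norm_num
  have hstrip : ∀ z : ℂ, z.re = -c → z ≠ 0 ∧ z + 1 ≠ 0 ∧
      ‖Kf z‖ ≤ (4 / δ ^ 2) * (1 + |z.im|) ^ (-2 : ℝ) := fun z hz' =>
    Kf_strip hc0 hc1 (by rw [hz']; exact neg_le_neg (le_max_left _ _))
      (by rw [hz']; exact neg_le_neg (min_le_left _ _))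
  have hleft : ∀ z : ℂ, z.re = -c → ‖g z * Kf z‖ ≤
      ((N : ℝ) ^ (-c) * D * (4 / δ ^ 2)) * (1 + |z.im|) ^ (-(3 / 2) : ℝ) := by
    intro z hz'
    have e1 := hgb z hz'.ge (by rw [hz']; linarith)
    rw [hz'] at e1
    have e2 := (hstrip z hz').2.2
    rw [norm_mul]
    calc ‖g z‖ * ‖Kf z‖ ≤ ((N : ℝ) ^ (-c) * D * (1 + |z.im|) ^ (1 / 2 : ℝ)) *
          ((4 / δ ^ 2) * (1 + |z.im|) ^ (-2 : ℝ)) := by gcongr
      _ = ((N : ℝ) ^ (-c) * D * (4 / δ ^ 2)) * ((1 + |z.im|) ^ (1 / 2 : ℝ) * (1 + |z.im|) ^ (-2 : ℝ)) := by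
        ring
      _ = _ := by rw [hpow]
  have iL : Integrable (fun y : ℝ => g (((-c : ℝ) : ℂ) + y * Complex.I) *
      Kf (((-c : ℝ) : ℂ) + y * Complex.I)) := by
    refine vertical_integrable (H := fun z => g z * Kf z) (fun z hz' => ?_) hleft
    obtain ⟨n1, n2, -⟩ := hstrip z hz'
    exact (hgd z hz'.ge (by rw [hz']; linarith)).continuousAt.mul (Kf_cont n1 n2)
  have iR : Integrable (fun y : ℝ => g (((2 : ℝ) : ℂ) + y * Complex.I) *
      Kf (((2 : ℝ) : ℂ) + y * Complex.I)) := by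
    refine vertical_integrable (H := fun z => g z * Kf z) (B := ((N : ℝ) ^ (2 : ℝ) * D) * 4)
      (fun z hz' => ?_) (fun z hz' => ?_)
    · obtain ⟨n1, n2, -⟩ := Kf_two hz'
      exact (hgd z (by rw [hz']; linarith) hz'.le).continuousAt.mul (Kf_cont n1 n2)
    · obtain ⟨-, -, n3⟩ := Kf_two hz'
      have e1 := hgb' z (by rw [hz']; linarith) hz'.le
      rw [norm_mul]
      calc ‖g z‖ * ‖Kf z‖ ≤ (((N : ℝ) ^ (2 : ℝ) * D) * (1 + |z.im|) ^ (1 / 2 : ℝ)) *
            (4 * (1 + |z.im|) ^ (-2 : ℝ)) := by gcongr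
        _ = (((N : ℝ) ^ (2 : ℝ) * D) * 4) * ((1 + |z.im|) ^ (1 / 2 : ℝ) * (1 + |z.im|) ^ (-2 : ℝ)) := by
          ring
        _ = _ := by rw [hpow]
  obtain ⟨iK, vK⟩ := K_left2 hc0 hc1
  have hL : ∫ y : ℝ, (g (((-c : ℝ) : ℂ) + y * Complex.I) - g 0) * Kf (((-c : ℝ) : ℂ) + y * Complex.I) =
      (∫ y : ℝ, g (((-c : ℝ) : ℂ) + y * Complex.I) * Kf (((-c : ℝ) : ℂ) + y * Complex.I)) +
        (O.L s)⁻¹ * (2 * Real.pi) := by
    simp_rw [sub_mul]
    rw [integral_sub iL (iK.const_mul _), integral_const_mul, vK, hg0]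
    ring
  have hR : ∫ y : ℝ, (g (((2 : ℝ) : ℂ) + y * Complex.I) - g 0) * Kf (((2 : ℝ) : ℂ) + y * Complex.I) =
      ∫ y : ℝ, g (((2 : ℝ) : ℂ) + y * Complex.I) * Kf (((2 : ℝ) : ℂ) + y * Complex.I) := by
    simp_rw [sub_mul]
    rw [integral_sub iR (Kf_int_two.const_mul _), integral_const_mul, Kf_zero2, mul_zero, sub_zero]
  rw [hL, hR] at hsh
  have hP := poly_eq2 O (s := s) (by rw [hsre]; linarith) hN
  have hP2 : ∫ y : ℝ, Kf (((2 : ℝ) : ℂ) + y * Complex.I) *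
        (Complex.exp ((((2 : ℝ) : ℂ) + y * Complex.I) * (Real.log N : ℝ)) *
        (O.L (s + (((2 : ℝ) : ℂ) + y * Complex.I)))⁻¹) =
      ∫ y : ℝ, g (((2 : ℝ) : ℂ) + y * Complex.I) * Kf (((2 : ℝ) : ℂ) + y * Complex.I) := by
    refine integral_congr_ae (Eventually.of_forall fun y => ?_)
    simp only [hg]
    ring
  have hpi : ((2 * Real.pi : ℝ) : ℂ) ≠ 0 := by
    exact_mod_cast (by positivity : (2 * Real.pi : ℝ) ≠ 0)
  have hfin : (∑ n ∈ Finset.Icc 1 N, mobL O N n * (n : ℂ) ^ (-s)) - (O.L s)⁻¹ =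
      (((2 * Real.pi)⁻¹ : ℝ) : ℂ) *
      ∫ y : ℝ, g (((-c : ℝ) : ℂ) + y * Complex.I) * Kf (((-c : ℝ) : ℂ) + y * Complex.I) := by
    rw [hP, hP2, ← hsh]
    have h1 : (((2 * Real.pi)⁻¹ : ℝ) : ℂ) * ((O.L s)⁻¹ * (2 * Real.pi)) = (O.L s)⁻¹ := by
      rw [Complex.ofReal_inv]
      have h2 : ((2 * Real.pi : ℝ) : ℂ) = 2 * (Real.pi : ℂ) := by push_cast; rfl
      rw [h2] at hpi ⊢
      field_simp
    rw [mul_add, h1]
    ring
  rw [hfin, norm_mul, Complex.norm_real, Real.norm_eq_abs, abs_of_pos (by positivity)]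
  have hE : ‖∫ y : ℝ, g (((-c : ℝ) : ℂ) + y * Complex.I) * Kf (((-c : ℝ) : ℂ) + y * Complex.I)‖ ≤
      ((N : ℝ) ^ (-c) * D * (4 / δ ^ 2)) * I0 := by
    rw [hI0, ← integral_const_mul]
    refine norm_integral_le_of_norm_le (integrable_decay.const_mul _) (Eventually.of_forall fun y => ?_)
    have := hleft (((-c : ℝ) : ℂ) + y * Complex.I) (by simp)
    simpa using this
  have hx1 : (N : ℝ) ^ (-c) ≤ (N : ℝ) ^ (θ - σ + ε) := by
    refine Real.rpow_le_rpow_of_exponent_le hN1 ?_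
    rw [hc]
    linarith
  have hx2 : (1 + |t|) ^ e ≤ (1 + |t|) ^ ε :=
    Real.rpow_le_rpow_of_exponent_le (by linarith [abs_nonneg t]) (by linarith)
  calc (2 * Real.pi)⁻¹ * ‖∫ y : ℝ, g (((-c : ℝ) : ℂ) + y * Complex.I) *
        Kf (((-c : ℝ) : ℂ) + y * Complex.I)‖
      ≤ (2 * Real.pi)⁻¹ * (((N : ℝ) ^ (-c) * D * (4 / δ ^ 2)) * I0) := by gcongr
    _ = ((2 * Real.pi)⁻¹ * (Cf * (4 / δ ^ 2) * I0)) * (N : ℝ) ^ (-c) * (1 + |t|) ^ e := by
      rw [hD]; ring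
    _ ≤ ((2 * Real.pi)⁻¹ * (Cf * (4 / δ ^ 2) * I0) + 1) * (N : ℝ) ^ (θ - σ + ε) * (1 + |t|) ^ ε := by
      gcongr
      linarith

end

end Pool.Agent.Q124.NL
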